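import Mathlib

/-!
# The Dehn invariant of a tetrahedron
-/

set_option autoImplicit false

open scoped TensorProduct RealInnerProductSpace

namespace Pool.Agent.L5helper66.TD

/-- Euclidean 3-space. -/
abbrev E3 : Type := EuclideanSpace ℝ (Fin 3)

/-- The component of `v` which is orthogonal to `u`. -/
noncomputable def orth (u v : E3) : E3 := v - (⟪u, v⟫ / ⟪u, u⟫) • u

/-- The dihedral angle of the tetrahedron `P Q R S` at its edge `P Q`. -/
noncomputable def dihedral (P Q R S : E3) : ℝ :=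
  InnerProductGeometry.angle (orth (Q - P) (R - P)) (orth (Q - P) (S - P))

/-- The group `ℝ / π ℤ`. -/
abbrev Ang : Type := ℝ ⧸ AddSubgroup.zmultiples Real.pi

/-- The class of an angle in `ℝ / π ℤ`. -/
noncomputable def ang (x : ℝ) : Ang := QuotientAddGroup.mk x

/-- The contribution `|P Q| ⊗ θ` of the edge `P Q` of the tetrahedron `P Q R S`, where `θ` is the
dihedral angle at this edge. -/
noncomputable def term (P Q R S : E3) : ℝ ⊗[ℤ] Ang := dist P Q ⊗ₜ[ℤ] ang (dihedral P Q R S)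

/-- The Dehn invariant of the tetrahedron with the vertices `T 0`, `T 1`, `T 2`, `T 3`: the sum of
`length ⊗ dihedral angle` over the six edges, in `ℝ ⊗ (ℝ / π ℤ)`. -/
noncomputable def dehn (T : Fin 4 → E3) : ℝ ⊗[ℤ] Ang :=
  term (T 0) (T 1) (T 2) (T 3) + term (T 0) (T 2) (T 1) (T 3) + term (T 0) (T 3) (T 1) (T 2) +
    term (T 1) (T 2) (T 0) (T 3) + term (T 1) (T 3) (T 0) (T 2) + term (T 2) (T 3) (T 0) (T 1)

/-- A regular triangular pyramid with base edges `a` and lateral edges `b`. -/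
def IsPyramid (T : Fin 4 → E3) (a b : ℝ) : Prop :=
  dist (T 0) (T 1) = a ∧ dist (T 1) (T 2) = a ∧ dist (T 0) (T 2) = a ∧
    dist (T 0) (T 3) = b ∧ dist (T 1) (T 3) = b ∧ dist (T 2) (T 3) = b

/-- A tetragonal disphenoid: two opposite edges `a`, four edges `b`. -/
def IsDisphenoid (T : Fin 4 → E3) (a b : ℝ) : Prop :=
  dist (T 0) (T 1) = a ∧ dist (T 2) (T 3) = a ∧ dist (T 0) (T 2) = b ∧
    dist (T 0) (T 3) = b ∧ dist (T 1) (T 2) = b ∧ dist (T 1) (T 3) = b

end Pool.Agent.L5helper66.TD
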