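import Pool.Agent.L5helper66.TD.Defs

/-!
# Tetrahedra with given edges, angles modulo `π`
-/

set_option autoImplicit false

open scoped TensorProduct RealInnerProductSpace

namespace Pool.Agent.L5helper66.TD

/-- The number `288 V²` of a tetrahedron with the edges `PQ = a`, `PR = b`, `PS = c`, `QR = d`,
`QS = e`, `RS = f`. -/
def cm (a b c d e f : ℝ) : ℝ :=
  (2 * a ^ 2) * ((2 * b ^ 2) * (2 * c ^ 2) - (b ^ 2 + c ^ 2 - f ^ 2) ^ 2) -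
  (a ^ 2 + b ^ 2 - d ^ 2) * ((a ^ 2 + b ^ 2 - d ^ 2) * (2 * c ^ 2) -
    (b ^ 2 + c ^ 2 - f ^ 2) * (a ^ 2 + c ^ 2 - e ^ 2)) +
  (a ^ 2 + c ^ 2 - e ^ 2) * ((a ^ 2 + b ^ 2 - d ^ 2) * (b ^ 2 + c ^ 2 - f ^ 2) -
    (2 * b ^ 2) * (a ^ 2 + c ^ 2 - e ^ 2))

/-- The edges of a tetrahedron: `01 = a`, `02 = b`, `03 = c`, `12 = d`, `13 = e`, `23 = f`. -/
def HasEdges (T : Fin 4 → E3) (a b c d e f : ℝ) : Prop :=
  dist (T 0) (T 1) = a ∧ dist (T 0) (T 2) = b ∧ dist (T 0) (T 3) = c ∧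
    dist (T 1) (T 2) = d ∧ dist (T 1) (T 3) = e ∧ dist (T 2) (T 3) = f

/-- The complex number `x + i y` is not zero and has the argument `θ` modulo `π`. -/
def Dir (θ x y : ℝ) : Prop := ∃ k : ℝ, k ≠ 0 ∧ x = k * Real.cos θ ∧ y = k * Real.sin θ

lemma Dir.mul {θ x y θ' x' y' : ℝ} (h : Dir θ x y) (h' : Dir θ' x' y') :
    Dir (θ + θ') (x * x' - y * y') (x * y' + y * x') := by
  obtain ⟨k, hk, rfl, rfl⟩ := h
  obtain ⟨l, hl, rfl, rfl⟩ := h'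
  refine ⟨k * l, mul_ne_zero hk hl, ?_, ?_⟩
  · rw [Real.cos_add]
    ring
  · rw [Real.sin_add]
    ring

lemma Dir.neg {θ x y : ℝ} (h : Dir θ x y) : Dir (-θ) x (-y) := by
  obtain ⟨k, hk, rfl, rfl⟩ := h
  exact ⟨k, hk, by rw [Real.cos_neg], by rw [Real.sin_neg]; ring⟩

lemma Dir.scale {θ x y c x' y' : ℝ} (h : Dir θ x y) (hc : c ≠ 0) (hx : c * x' = x)
    (hy : c * y' = y) : Dir θ x' y' := by
  obtain ⟨k, hk, h1, h2⟩ := h
  refine ⟨k / c, div_ne_zero hk hc, ?_, ?_⟩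
  · rw [div_mul_eq_mul_div, ← h1, ← hx]
    field_simp
  · rw [div_mul_eq_mul_div, ← h2, ← hy]
    field_simp

lemma Dir.ang_eq_zero {θ x : ℝ} (h : Dir θ x 0) : ang θ = 0 := by
  obtain ⟨k, hk, h1, h2⟩ := h
  have h3 : Real.sin θ = 0 := by
    rcases mul_eq_zero.1 h2.symm with h | h
    · exact absurd h hk
    · exact h
  obtain ⟨n, hn⟩ := Real.sin_eq_zero_iff.1 h3
  rw [ang, QuotientAddGroup.eq_zero_iff, AddSubgroup.mem_zmultiples_iff]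
  exact ⟨n, by rw [← hn, zsmul_eq_mul]⟩

end Pool.Agent.L5helper66.TD
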