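import Pool.Agent.L5helper66.TD.Defs2
import Pool.Agent.L5helper5.NFCm
import Pool.Agent.L5helper97.NFTerm

/-!
# A rational family of tetrahedra with Dehn invariant zero
-/

set_option autoImplicit false

open scoped TensorProduct RealInnerProductSpace

namespace Pool.Agent.L5helper66.TD

open Pool.Agent.L5helper5.NF (cm_pos)
open Pool.Agent.L5helper97.NF (term_dist)

lemma ang_add (x y : ℝ) : ang (x + y) = ang x + ang y := rfl
lemma ang_neg (x : ℝ) : ang (-x) = -ang x := rfl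

lemma Dir.ang_eq_zero' {θ x y : ℝ} (h : Dir θ x y) (hy : y = 0) : ang θ = 0 :=
  (hy ▸ h : Dir θ x 0).ang_eq_zero

lemma tmul_zs (x : ℝ) (n : ℤ) (A : Ang) : x ⊗ₜ[ℤ] (n • A) = ((n : ℝ) * x) ⊗ₜ[ℤ] A := by
  rw [TensorProduct.tmul_smul, TensorProduct.smul_tmul', zsmul_eq_mul]

lemma cm_p1 (a b c d e f : ℝ) : cm b a c d f e = cm a b c d e f := by unfold cm; ring
lemma cm_p2 (a b c d e f : ℝ) : cm c a b e f d = cm a b c d e f := by unfold cm; ring
lemma cm_p3 (a b c d e f : ℝ) : cm d a e b f c = cm a b c d e f := by unfold cm; ring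
lemma cm_p4 (a b c d e f : ℝ) : cm e a d c f b = cm a b c d e f := by unfold cm; ring
lemma cm_p5 (a b c d e f : ℝ) : cm f b d c e a = cm a b c d e f := by unfold cm; ring

lemma cmC (m : ℝ) : cm (4 * m ^ 2 + 36 * m) (3 * m ^ 2 + 14 * m + 27) (-m ^ 2 + 18 * m + 27)
      (-m ^ 2 + 10 * m + 27) (3 * m ^ 2 + 6 * m + 27) (-2 * m ^ 2 + 8 * m + 18) =
    55296 * (m * (m + 1) * (m + 9) * (3 - m)) ^ 2 * ((m + 5) * (5 * m + 9)) := by
  unfold cm
  ring

theorem C_dehn (m : ℝ) (T : Fin 4 → E3) (hT : AffineIndependent ℝ T)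
    (h : HasEdges T |4 * m ^ 2 + 36 * m| |3 * m ^ 2 + 14 * m + 27| |-m ^ 2 + 18 * m + 27|
      |-m ^ 2 + 10 * m + 27| |3 * m ^ 2 + 6 * m + 27| |-2 * m ^ 2 + 8 * m + 18|) :
    dehn T = 0 := by
  have hcm := cm_pos T hT _ _ _ _ _ _ h
  obtain ⟨h01, h02, h03, h12, h13, h23⟩ := h
  have hcm2 := hcm
  rw [cmC] at hcm2
  set K : ℝ := m * (m + 1) * (m + 9) * (3 - m) with hK
  have hK0 : K ≠ 0 := by
    intro h0
    rw [h0] at hcm2
    norm_num at hcm2
  have hm0 : m ≠ 0 := by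
    rintro rfl
    exact hK0 (by rw [hK]; ring)
  have hm1 : m + 1 ≠ 0 := by
    intro h0
    exact hK0 (by rw [hK, h0]; ring)
  have hm9 : m + 9 ≠ 0 := by
    intro h0
    exact hK0 (by rw [hK, h0]; ring)
  have hm3 : 3 - m ≠ 0 := by
    intro h0
    exact hK0 (by rw [hK, h0]; ring)
  have hpos : 0 < (m + 5) * (5 * m + 9) := by
    have hK2 : 0 < 55296 * K ^ 2 := by positivity
    exact (pos_iff_pos_of_mul_pos hcm2).1 hK2
  have hm5 : m + 5 ≠ 0 := by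
    intro h0
    rw [h0] at hpos
    norm_num at hpos
  have hmp3 : m + 3 ≠ 0 := by
    intro h0
    have : m = -3 := by linarith
    rw [this] at hpos
    norm_num at hpos
  have hq : m ^ 2 + 2 * m + 9 ≠ 0 := by nlinarith [sq_nonneg (m + 1)]
  -- the number `r`
  set s : ℝ := √(2 * cm (4 * m ^ 2 + 36 * m) (3 * m ^ 2 + 14 * m + 27) (-m ^ 2 + 18 * m + 27)
      (-m ^ 2 + 10 * m + 27) (3 * m ^ 2 + 6 * m + 27) (-2 * m ^ 2 + 8 * m + 18)) with hs
  set r : ℝ := s / (192 * K) with hr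
  have hs2 : s ^ 2 = 110592 * K ^ 2 * ((m + 5) * (5 * m + 9)) := by
    rw [hs, Real.sq_sqrt (by linarith), cmC]
    ring
  have hsr : s = 192 * K * r := by
    rw [hr]
    field_simp
  have hr2 : r ^ 2 = 3 * ((m + 5) * (5 * m + 9)) := by
    rw [hr, div_pow, hs2]
    field_simp
    ring
  have hr0 : r ≠ 0 := by
    intro h0
    rw [h0] at hr2
    nlinarith
  -- the six angles
  obtain ⟨A, tA, dA⟩ := term_dist (T 0) (T 1) (T 2) (T 3) _ _ _ _ _ _ h01 h02 h03 h12 h13 h23 hcm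
  obtain ⟨B, tB, dB⟩ := term_dist (T 0) (T 2) (T 1) (T 3) _ _ _ _ _ _ h02 h01 h03
    ((dist_comm _ _).trans h12) h23 h13 (by rw [cm_p1]; exact hcm)
  obtain ⟨C, tC, dC⟩ := term_dist (T 0) (T 3) (T 1) (T 2) _ _ _ _ _ _ h03 h01 h02
    ((dist_comm _ _).trans h13) ((dist_comm _ _).trans h23) h12 (by rw [cm_p2]; exact hcm)
  obtain ⟨D, tD, dD⟩ := term_dist (T 1) (T 2) (T 0) (T 3) _ _ _ _ _ _ h12
    ((dist_comm _ _).trans h01) h13 ((dist_comm _ _).trans h02) h23 h03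
    (by rw [cm_p3]; exact hcm)
  obtain ⟨E, tE, dE⟩ := term_dist (T 1) (T 3) (T 0) (T 2) _ _ _ _ _ _ h13
    ((dist_comm _ _).trans h01) h12 ((dist_comm _ _).trans h03) ((dist_comm _ _).trans h23) h02
    (by rw [cm_p4]; exact hcm)
  obtain ⟨F, tF, dF⟩ := term_dist (T 2) (T 3) (T 0) (T 1) _ _ _ _ _ _ h23
    ((dist_comm _ _).trans h02) ((dist_comm _ _).trans h12) ((dist_comm _ _).trans h03)
    ((dist_comm _ _).trans h13) h01 (by rw [cm_p5]; exact hcm)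
  rw [cm_p1] at dB
  rw [cm_p2] at dC
  rw [cm_p3] at dD
  rw [cm_p4] at dE
  rw [cm_p5] at dF
  rw [← hs, hsr] at dA dB dC dD dE dF
  clear_value s r
  -- simplified directions
  have zA : Dir A (3 * (m + 5)) r := by
    refine dA.scale (c := 768 * (K * (m * (m + 9)))) (by positivity) ?_ ?_
    · rw [hK]; ring
    · rw [hK]; ring
  have zE : Dir E (3 - m) r := by
    refine dE.scale (c := 576 * (K * (m ^ 2 + 2 * m + 9))) (by positivity) ?_ ?_
    · rw [hK]; ring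
    · rw [hK]; ring
  have zB : Dir B (r * (3 - m)) (3 * (3 * m ^ 2 + 14 * m + 27)) := by
    refine dB.scale (c := 64 * (K * r)) (by positivity) ?_ ?_
    · have : 64 * (K * r) * (r * (3 - m)) = 64 * K * (3 - m) * r ^ 2 := by ring
      rw [this, hr2, hK]
      ring
    · ring
  have zC : Dir C (3 * (5 * m + 9) * (m ^ 2 + 6 * m - 3)) (r * (-m ^ 2 + 18 * m + 27)) := by
    refine dC.scale (c := 192 * K) (by positivity) ?_ ?_
    · rw [hK]; ring
    · ring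
  have zD : Dir D (3 * (m + 5) * (3 * m ^ 2 + 10 * m - 9)) (r * (-m ^ 2 + 10 * m + 27)) := by
    refine dD.scale (c := 192 * K) (by positivity) ?_ ?_
    · rw [hK]; ring
    · ring
  have zF : Dir F (9 * (m + 1) * (5 * m + 9) * (9 - 4 * m - m ^ 2))
      (r * (m * (m + 9)) * (9 + 4 * m - m ^ 2)) := by
    refine dF.scale (c := 384 * ((m + 1) * (3 - m))) (by positivity) ?_ ?_
    · ring
    · rw [hK]; ring
  -- relations
  have z2A : Dir (A + A) (3 - m) r := by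
    refine (zA.mul zA).scale (c := 6 * (m + 5)) (by positivity) ?_ ?_
    · linear_combination hr2
    · ring
  have z3A : Dir (A + A + A) (-9 * (m + 5) * (m + 1)) (r * (m + 9)) := by
    refine (z2A.mul zA).scale (c := 2) (by norm_num) ?_ ?_
    · linear_combination hr2
    · ring
  have zG : Dir (B + (A + A + A)) r (m * (m + 5)) := by
    refine (zB.mul z3A).scale (c := -96 * (m + 3) ^ 2) (by positivity) ?_ ?_
    · ring
    · linear_combination (-(3 - m) * (m + 9)) * hr2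
  have e1 : ang (E + -(A + A)) = 0 :=
    (zE.mul z2A.neg).ang_eq_zero' (by ring)
  have e2 : ang (C + (B + (A + A + A)) + (A + A)) = 0 := by
    refine ((zC.mul zG).mul z2A).ang_eq_zero' ?_
    linear_combination (3 * (5 * m + 9) * (m ^ 2 + 6 * m - 3) - (-m ^ 2 + 18 * m + 27) * (m * (m + 5)) +
      (-m ^ 2 + 18 * m + 27) * (3 - m)) * hr2
  have e3 : ang (D + (B + (A + A + A) + (B + (A + A + A))) + -(A + A + A)) = 0 := by
    refine ((zD.mul (zG.mul zG)).mul z3A.neg).ang_eq_zero' ?_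
    linear_combination (r * ((-m ^ 2 + 10 * m + 27) * (-9 * (m + 5) * (m + 1)) -
      (3 * (m + 5) * (3 * m ^ 2 + 10 * m - 9)) * (m + 9) +
      (-m ^ 2 + 10 * m + 27) * (2 * (m * (m + 5))) * (m + 9))) * hr2
  have e4 : ang (F + (-(B + (A + A + A)) + -(B + (A + A + A)) + -(B + (A + A + A)))) = 0 := by
    refine (zF.mul ((zG.neg.mul zG.neg).mul zG.neg)).ang_eq_zero' ?_
    linear_combination ((m * (m + 9)) * (9 + 4 * m - m ^ 2) * (r ^ 2 + 3 * ((m + 5) * (5 * m + 9))) -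
      3 * ((m * (m + 9)) * (9 + 4 * m - m ^ 2)) * (m * (m + 5)) ^ 2 -
      3 * (9 * (m + 1) * (5 * m + 9) * (9 - 4 * m - m ^ 2)) * (m * (m + 5))) * hr2
  simp only [ang_add, ang_neg] at e1 e2 e3 e4
  have f1 : ang E = (2 : ℤ) • ang A := by
    rw [add_neg_eq_zero] at e1
    rw [e1]
    abel
  have f2 : ang C = (-1 : ℤ) • ang B + (-5 : ℤ) • ang A := by
    have : ang C = -(ang B + (ang A + ang A + ang A)) - (ang A + ang A) := by
      rw [eq_sub_iff_add_eq, ← sub_eq_zero, sub_neg_eq_add]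
      rw [← e2]
      abel
    rw [this]
    abel
  have f3 : ang D = (-2 : ℤ) • ang B + (-3 : ℤ) • ang A := by
    have : ang D = ang D - 0 := by rw [sub_zero]
    rw [this, ← e3]
    abel
  have f4 : ang F = (3 : ℤ) • ang B + (9 : ℤ) • ang A := by
    have : ang F = ang F - 0 := by rw [sub_zero]
    rw [this, ← e4]
    abel
  unfold dehn
  rw [tA, tB, tC, tD, tE, tF, f1, f2, f3, f4]
  simp only [TensorProduct.tmul_add, tmul_zs]
  have g1 : ∀ (x1 x2 x3 x4 x5 : ℝ) (P : Ang), x1 + x2 + x3 + x4 + x5 = 0 →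
      x1 ⊗ₜ[ℤ] P + x2 ⊗ₜ[ℤ] P + x3 ⊗ₜ[ℤ] P + x4 ⊗ₜ[ℤ] P + x5 ⊗ₜ[ℤ] P = 0 := by
    intro x1 x2 x3 x4 x5 P h
    rw [← TensorProduct.add_tmul, ← TensorProduct.add_tmul, ← TensorProduct.add_tmul,
      ← TensorProduct.add_tmul, h, TensorProduct.zero_tmul]
  have g2 : ∀ (x1 x2 x3 x4 : ℝ) (P : Ang), x1 + x2 + x3 + x4 = 0 →
      x1 ⊗ₜ[ℤ] P + x2 ⊗ₜ[ℤ] P + x3 ⊗ₜ[ℤ] P + x4 ⊗ₜ[ℤ] P = 0 := by
    intro x1 x2 x3 x4 P h
    rw [← TensorProduct.add_tmul, ← TensorProduct.add_tmul, ← TensorProduct.add_tmul, h,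
      TensorProduct.zero_tmul]
  have k1 := g1 (4 * m ^ 2 + 36 * m) (((-5 : ℤ) : ℝ) * (-m ^ 2 + 18 * m + 27))
    (((-3 : ℤ) : ℝ) * (-m ^ 2 + 10 * m + 27)) (((2 : ℤ) : ℝ) * (3 * m ^ 2 + 6 * m + 27))
    (((9 : ℤ) : ℝ) * (-2 * m ^ 2 + 8 * m + 18)) (ang A) (by push_cast; ring)
  have k2 := g2 (3 * m ^ 2 + 14 * m + 27) (((-1 : ℤ) : ℝ) * (-m ^ 2 + 18 * m + 27))
    (((-2 : ℤ) : ℝ) * (-m ^ 2 + 10 * m + 27)) (((3 : ℤ) : ℝ) * (-2 * m ^ 2 + 8 * m + 18)) (ang B)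
    (by push_cast; ring)
  have k3 := congrArg₂ (· + ·) k1 k2
  simp only [add_zero] at k3
  rw [← k3]
  abel

end Pool.Agent.L5helper66.TD
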