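import Pool.Agent.L5helper66.TD.FamC

/-!
# A second elliptic family of tetrahedra has Dehn invariant zero
-/

set_option autoImplicit false

open scoped TensorProduct RealInnerProductSpace

namespace Pool.Agent.L5helper66.TD

open Pool.Agent.L5helper97.NF (term_dist)

/-- Directions in the field with `√3`. -/
def DR (θ x y : ℝ) : Prop := Dir θ x (√3 * y)

lemma DR.mul {θ x y θ' x' y' : ℝ} (h : DR θ x y) (h' : DR θ' x' y') :
    DR (θ + θ') (x * x' - 3 * y * y') (x * y' + y * x') := by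
  have h3 : √3 * √3 = (3 : ℝ) := Real.mul_self_sqrt (by norm_num)
  have h4 := Dir.mul h h'
  have e1 : x * x' - √3 * y * (√3 * y') = x * x' - 3 * y * y' := by
    linear_combination (-(y * y')) * h3
  have e2 : x * (√3 * y') + √3 * y * x' = √3 * (x * y' + y * x') := by ring
  rw [e1, e2] at h4
  exact h4

lemma DR.neg {θ x y : ℝ} (h : DR θ x y) : DR (-θ) x (-y) := by
  have h4 := Dir.neg h
  have e2 : -(√3 * y) = √3 * (-y) := by ring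
  rw [e2] at h4
  exact h4

lemma DR.cross {θ X Y x y : ℝ} (h : Dir θ X (√3 * Y)) (hY : Y ≠ 0) (hy : y ≠ 0)
    (hc : X * y = Y * x) : DR θ x y := by
  refine Dir.scale h (c := Y / y) (div_ne_zero hY hy) ?_ ?_
  · rw [div_mul_eq_mul_div, div_eq_iff hy, ← hc]
  · field_simp

lemma DR.third {θ x y : ℝ} (h : DR θ x y) (hxy : x = y) : (3 : ℤ) • ang θ = 0 := by
  subst hxy
  have h4 := (h.mul h).mul h
  have h5 : ang (θ + θ + θ) = 0 := by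
    refine Dir.ang_eq_zero' h4 ?_
    ring
  rw [← h5, ang_add, ang_add]
  abel

theorem G_dehn (x y z : ℝ) (hx : 1 < x) (hy0 : 0 < y) (hy1 : y < 1) (hz1 : 1 < z) (hz2 : z < 2)
    (hz : z ^ 2 = 9 - 2 * x - 3 * x ^ 2) (hy : 2 * y ^ 2 = 3 * (3 - x - z))
    (hW : 0 < 3 - 2 * x - 3 * x ^ 2 + z * (1 + 3 * x)) (hx3 : x < 2)
    (T : Fin 4 → E3)
    (h : HasEdges T (1 + x + y) (3 - x + y) (2 * x) (2 * y) (4 - y - z) (z - y)) :
    dehn T = 0 := by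
  obtain ⟨g01, g02, g03, g12, g13, g23⟩ := h
  have pa : 0 < 1 + x + y := by linarith
  have pb : 0 < 3 - x + y := by linarith
  have pc : 0 < 2 * x := by linarith
  have pd : 0 < 2 * y := by linarith
  have pe : 0 < 4 - y - z := by linarith
  have pf : 0 < z - y := by linarith
  have h01 : dist (T 0) (T 1) = |1 + x + y| := by rw [g01, abs_of_pos pa]
  have h02 : dist (T 0) (T 2) = |3 - x + y| := by rw [g02, abs_of_pos pb]
  have h03 : dist (T 0) (T 3) = |2 * x| := by rw [g03, abs_of_pos pc]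
  have h12 : dist (T 1) (T 2) = |2 * y| := by rw [g12, abs_of_pos pd]
  have h13 : dist (T 1) (T 3) = |4 - y - z| := by rw [g13, abs_of_pos pe]
  have h23 : dist (T 2) (T 3) = |z - y| := by rw [g23, abs_of_pos pf]
  clear g01 g02 g03 g12 g13 g23
  obtain ⟨W, hWdef⟩ : ∃ W, W = 3 - 2 * x - 3 * x ^ 2 + z * (1 + 3 * x) := ⟨_, rfl⟩
  rw [← hWdef] at hW
  have hxe : x = 3 - z - 2 / 3 * y ^ 2 := by linarith
  have hcmv : cm (1 + x + y) (3 - x + y) (2 * x) (2 * y) (4 - y - z) (z - y) =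
      32 / 3 * y ^ 2 * W ^ 2 := by
    rw [hWdef]
    unfold cm
    subst hxe
    linear_combination (
      (-224/9 : ℝ) * y^6 + (-96 : ℝ) * y^4 * z^1 + (1856/9 : ℝ) * y^4 + (-96 : ℝ) * y^2 * z^2
       + (352 : ℝ) * y^2 * z^1 + (-256/3 : ℝ) * y^2 + (-128 : ℝ) * z^2 + (640 : ℝ) * z^1
       + (-768 : ℝ)) * hz
  have hcm : 0 < cm (1 + x + y) (3 - x + y) (2 * x) (2 * y) (4 - y - z) (z - y) := by
    rw [hcmv]
    positivity
  obtain ⟨s, hs⟩ : ∃ s, s = √(2 * cm (1 + x + y) (3 - x + y) (2 * x) (2 * y) (4 - y - z) (z - y)) :=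
    ⟨_, rfl⟩
  have hr2 : √3 ^ 2 = (3 : ℝ) := Real.sq_sqrt (by norm_num)
  have hsr : s = √3 * (8 / 3 * y * W) := by
    have e1 : 2 * cm (1 + x + y) (3 - x + y) (2 * x) (2 * y) (4 - y - z) (z - y) =
        (√3 * (8 / 3 * y * W)) ^ 2 := by
      rw [hcmv]
      linear_combination (-(64 / 9 * y ^ 2 * W ^ 2)) * hr2
    rw [hs, e1, Real.sqrt_sq (by positivity)]
  -- the six angles
  obtain ⟨A, tA, dA⟩ := term_dist (T 0) (T 1) (T 2) (T 3) _ _ _ _ _ _ h01 h02 h03 h12 h13 h23 hcm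
  obtain ⟨B, tB, dB⟩ := term_dist (T 0) (T 2) (T 1) (T 3) _ _ _ _ _ _ h02 h01 h03
    ((dist_comm _ _).trans h12) h23 h13 (by rw [cm_p1]; exact hcm)
  obtain ⟨C, tC, dC⟩ := term_dist (T 0) (T 3) (T 1) (T 2) _ _ _ _ _ _ h03 h01 h02
    ((dist_comm _ _).trans h13) ((dist_comm _ _).trans h23) h12 (by rw [cm_p2]; exact hcm)
  obtain ⟨D, tD, dD⟩ := term_dist (T 1) (T 2) (T 0) (T 3) _ _ _ _ _ _ h12
    ((dist_comm _ _).trans h01) h13 ((dist_comm _ _).trans h02) h23 h03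
    (by rw [cm_p3]; exact hcm)
  obtain ⟨E, tE, dE⟩ := term_dist (T 1) (T 3) (T 0) (T 2) _ _ _ _ _ _ h13
    ((dist_comm _ _).trans h01) h12 ((dist_comm _ _).trans h03) ((dist_comm _ _).trans h23) h02
    (by rw [cm_p4]; exact hcm)
  obtain ⟨F, tF, dF⟩ := term_dist (T 2) (T 3) (T 0) (T 1) _ _ _ _ _ _ h23
    ((dist_comm _ _).trans h02) ((dist_comm _ _).trans h12) ((dist_comm _ _).trans h03)
    ((dist_comm _ _).trans h13) h01 (by rw [cm_p5]; exact hcm)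
  rw [cm_p1] at dB
  rw [cm_p2] at dC
  rw [cm_p3] at dD
  rw [cm_p4] at dE
  rw [cm_p5] at dF
  rw [← hs, hsr, mul_left_comm] at dA dB dC dD dE dF
  have zA : DR A _ ((1 + x + y) * (8 / 3 * y * W)) := dA
  have zB : DR B _ ((3 - x + y) * (8 / 3 * y * W)) := dB
  have nW : ∀ u : ℝ, 0 < u → u * (8 / 3 * y * W) ≠ 0 := fun u hu => by positivity
  have zC : DR C (3 * (x + z - 1)) (4 * y) := by
    refine DR.cross dC (nW _ pc) (by positivity) ?_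
    rw [hWdef]
    subst hxe
    linear_combination (
      (16/9 : ℝ) * y^5 + (16/3 : ℝ) * y^3 * z^1 + (-16 : ℝ) * y^3 + (-16 : ℝ) * y^1 * z^1
       + (96 : ℝ) * y^1) * hz
  have zD : DR D (z - 1) x := by
    refine DR.cross dD (nW _ pd) (by positivity) ?_
    rw [hWdef]
    subst hxe
    linear_combination (
      (16/3 : ℝ) * y^4 + (8 : ℝ) * y^2 * z^1 + (-56/3 : ℝ) * y^2 + (16 : ℝ) * z^1 + (-32 : ℝ)) * hz
  have zE : DR E (3 - 3 * x + y) (z - y) := by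
    refine DR.cross dE (nW _ pe) pf.ne' ?_
    rw [hWdef]
    subst hxe
    linear_combination (
      (-16/3 : ℝ) * y^4 + (-16/3 : ℝ) * y^3 * z^1 + (44/3 : ℝ) * y^3
       + (-56/3 : ℝ) * y^2 * z^1 + (104/3 : ℝ) * y^2 + (-12 : ℝ) * y^1 * z^2
       + (80 : ℝ) * y^1 * z^1 + (-104 : ℝ) * y^1 + (-8 : ℝ) * z^2 + (24 : ℝ) * z^1) * hz
  have zF : DR F (3 - 3 * x + y) (z - y) := by
    refine DR.cross dF (nW _ pf) pf.ne' ?_
    rw [hWdef]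
    subst hxe
    linear_combination (
      (-16/3 : ℝ) * y^4 + (16/3 : ℝ) * y^3 * z^1 + (-20/3 : ℝ) * y^3
       + (-16/3 : ℝ) * y^2 * z^1 + (8 : ℝ) * y^2 + (12 : ℝ) * y^1 * z^2
       + (-16 : ℝ) * y^1 * z^1 + (24 : ℝ) * y^1 + (8 : ℝ) * z^2 + (-24 : ℝ) * z^1) * hz
  -- relations
  have e1 : ang (E + -F) = 0 := by
    refine Dir.ang_eq_zero' (zE.mul zF.neg) ?_
    ring
  have e2 : (3 : ℤ) • ang (A + (C + (D + -E))) = 0 := by
    refine (zA.mul (zC.mul (zD.mul zE.neg))).third ?_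
    rw [hWdef]
    subst hxe
    linear_combination (
      (-64/9 : ℝ) * y^9 + (-32 : ℝ) * y^8 + (-544/9 : ℝ) * y^7 * z^1 + (1216/9 : ℝ) * y^7
       + (-1120/9 : ℝ) * y^6 * z^1 + (2560/9 : ℝ) * y^6 + (-416/3 : ℝ) * y^5 * z^2
       + (1760/3 : ℝ) * y^5 * z^1 + (-2080/3 : ℝ) * y^5 + (-192 : ℝ) * y^4 * z^2
       + (1984/3 : ℝ) * y^4 * z^1 + (-2464/3 : ℝ) * y^4 + (-96 : ℝ) * y^3 * z^3
       + (480 : ℝ) * y^3 * z^2 + (-832 : ℝ) * y^3 * z^1 + (800 : ℝ) * y^3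
       + (-128 : ℝ) * y^2 * z^3 + (448 : ℝ) * y^2 * z^2 + (-288 : ℝ) * y^2 * z^1
       + (64 : ℝ) * y^2 + (-96 : ℝ) * y^1 * z^3 + (192 : ℝ) * y^1 * z^2
       + (384 : ℝ) * y^1 * z^1 + (-768 : ℝ) * y^1 + (-192 : ℝ) * z^3 + (1344 : ℝ) * z^2
       + (-3456 : ℝ) * z^1 + (3456 : ℝ)) * hz
  have e3 : (3 : ℤ) • ang (B + (-C + (D + -E))) = 0 := by
    refine (zB.mul (zC.neg.mul (zD.mul zE.neg))).third ?_
    rw [hWdef]
    subst hxe
    linear_combination (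
      (64/9 : ℝ) * y^9 + (-800/9 : ℝ) * y^8 + (544/9 : ℝ) * y^7 * z^1 + (-320 : ℝ) * y^7
       + (-3296/9 : ℝ) * y^6 * z^1 + (9344/9 : ℝ) * y^6 + (416/3 : ℝ) * y^5 * z^2
       + (-4384/3 : ℝ) * y^5 * z^1 + (2464 : ℝ) * y^5 + (-512 : ℝ) * y^4 * z^2
       + (8704/3 : ℝ) * y^4 * z^1 + (-12832/3 : ℝ) * y^4 + (96 : ℝ) * y^3 * z^3
       + (-1888 : ℝ) * y^3 * z^2 + (6528 : ℝ) * y^3 * z^1 + (-6240 : ℝ) * y^3
       + (-256 : ℝ) * y^2 * z^3 + (2304 : ℝ) * y^2 * z^2 + (-6752 : ℝ) * y^2 * z^1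
       + (7104 : ℝ) * y^2 + (-672 : ℝ) * y^1 * z^3 + (3648 : ℝ) * y^1 * z^2
       + (-6912 : ℝ) * y^1 * z^1 + (4608 : ℝ) * y^1 + (192 : ℝ) * z^3 + (-1344 : ℝ) * z^2
       + (3456 : ℝ) * z^1 + (-3456 : ℝ)) * hz
  have e4 : (3 : ℤ) • ang (E + E + (E + E) + (C + -(D + D))) = 0 := by
    refine (((zE.mul zE).mul (zE.mul zE)).mul (zC.mul (zD.mul zD).neg)).third ?_
    subst hxe
    linear_combination (
      (32 : ℝ) * y^10 + (192 : ℝ) * y^9 + (160 : ℝ) * y^8 * z^1 + (-736 : ℝ) * y^8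
       + (1216 : ℝ) * y^7 * z^1 + (-2688 : ℝ) * y^7 + (288 : ℝ) * y^6 * z^2
       + (-2816 : ℝ) * y^6 * z^1 + (5984 : ℝ) * y^6 + (2880 : ℝ) * y^5 * z^2
       + (-12480 : ℝ) * y^5 * z^1 + (12864 : ℝ) * y^5 + (192 : ℝ) * y^4 * z^3
       + (-3552 : ℝ) * y^4 * z^2 + (16128 : ℝ) * y^4 * z^1 + (-21408 : ℝ) * y^4
       + (3072 : ℝ) * y^3 * z^3 + (-19200 : ℝ) * y^3 * z^2 + (38976 : ℝ) * y^3 * z^1
       + (-23424 : ℝ) * y^3 + (-1152 : ℝ) * y^2 * z^3 + (11232 : ℝ) * y^2 * z^2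
       + (-33408 : ℝ) * y^2 * z^1 + (31104 : ℝ) * y^2 + (1152 : ℝ) * y^1 * z^4
       + (-9216 : ℝ) * y^1 * z^3 + (27072 : ℝ) * y^1 * z^2 + (-32832 : ℝ) * y^1 * z^1
       + (10368 : ℝ) * y^1 + (1728 : ℝ) * z^3 + (-9504 : ℝ) * z^2 + (18144 : ℝ) * z^1
       + (-10368 : ℝ)) * hz
  clear zA zB zC zD zE zF dA dB dC dD dE dF
  have third : ∀ (u : ℝ) (θ : ℝ), (3 : ℤ) • ang θ = 0 → u ⊗ₜ[ℤ] ang θ = 0 := by
    intro u θ h0
    have h2 := tmul_zs (u / 3) 3 (ang θ)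
    rw [h0, TensorProduct.tmul_zero] at h2
    have h3 : ((3 : ℤ) : ℝ) * (u / 3) = u := by
      push_cast
      ring
    rw [h3] at h2
    exact h2.symm
  have k2 := third (1 + x + y) _ e2
  have k3 := third (3 - x + y) _ e3
  have k4 := third 2 _ e4
  simp only [ang_add, ang_neg, TensorProduct.tmul_add, TensorProduct.tmul_neg] at e1 k2 k3 k4
  have f1 : ang F = ang E := by
    rw [← sub_eq_zero, ← neg_eq_zero, ← e1]
    abel
  unfold dehn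
  rw [tA, tB, tC, tD, tE, tF, f1]
  have gC : (2 * x) ⊗ₜ[ℤ] ang C = (1 + x + y) ⊗ₜ[ℤ] ang C - (3 - x + y) ⊗ₜ[ℤ] ang C +
      (2 : ℝ) ⊗ₜ[ℤ] ang C := by
    rw [← TensorProduct.sub_tmul, ← TensorProduct.add_tmul]
    congr 1
    ring
  have gD : (2 * y) ⊗ₜ[ℤ] ang D = (1 + x + y) ⊗ₜ[ℤ] ang D + (3 - x + y) ⊗ₜ[ℤ] ang D -
      ((2 : ℝ) ⊗ₜ[ℤ] ang D + (2 : ℝ) ⊗ₜ[ℤ] ang D) := by
    rw [← TensorProduct.add_tmul, ← TensorProduct.add_tmul, ← TensorProduct.sub_tmul]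
    congr 1
    ring
  have gE : (4 - y - z) ⊗ₜ[ℤ] ang E = -((1 + x + y) ⊗ₜ[ℤ] ang E) - (3 - x + y) ⊗ₜ[ℤ] ang E +
      ((2 : ℝ) ⊗ₜ[ℤ] ang E + (2 : ℝ) ⊗ₜ[ℤ] ang E + ((2 : ℝ) ⊗ₜ[ℤ] ang E + (2 : ℝ) ⊗ₜ[ℤ] ang E)) -
      (z - y) ⊗ₜ[ℤ] ang E := by
    rw [← TensorProduct.neg_tmul]
    simp only [← TensorProduct.add_tmul, ← TensorProduct.sub_tmul]
    congr 1
    ring
  rw [gC, gD, gE]
  have k5 := congrArg₂ (· + ·) (congrArg₂ (· + ·) k2 k3) k4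
  simp only [add_zero] at k5
  refine Eq.trans ?_ k5
  abel

end Pool.Agent.L5helper66.TD
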