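import Pool.Agent.L5helper66.TD.Main

/-!
# Tetrahedra with a symmetry of order at least 3
-/

set_option autoImplicit false

open scoped TensorProduct RealInnerProductSpace

namespace Pool.Agent.L5helper66.TD

open Pool.Agent.L5helper37.TD (dehn_perm exists_pattern)

lemma indep_perm (T : Fin 4 → E3) (hT : AffineIndependent ℝ T) (τ : Equiv.Perm (Fin 4)) :
    AffineIndependent ℝ (T ∘ τ) := hT.comp_embedding τ.toEmbedding

theorem sym_iff (T : Fin 4 → E3) (hT : AffineIndependent ℝ T) (f : E3 → E3) (hf : Isometry f)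
    (σ : Equiv.Perm (Fin 4)) (hσ : ∀ i, f (T i) = T (σ i)) (h2 : σ * σ ≠ 1) :
    dehn T = 0 ↔ ∃ (τ : Equiv.Perm (Fin 4)) (c : ℝ), IsDisphenoid (T ∘ τ) (2 * c) (√3 * c) := by
  have hdist : ∀ i j, dist (T (σ i)) (T (σ j)) = dist (T i) (T j) := by
    intro i j
    rw [← hσ, ← hσ, hf.dist_eq]
  constructor
  · intro h0
    obtain ⟨τ, a, b, hp | hd⟩ := exists_pattern T σ h2 hdist
    · exact absurd ((dehn_perm T τ).trans h0) (pyr_ne _ (indep_perm T hT τ) a b hp)
    · have h3 := (dis_iff _ (indep_perm T hT τ) a b hd).1 ((dehn_perm T τ).trans h0)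
      have ha : 0 ≤ a := by rw [← hd.1]; exact dist_nonneg
      have hb : 0 ≤ b := by rw [← hd.2.2.1]; exact dist_nonneg
      refine ⟨τ, a / 2, ?_⟩
      have e1 : 2 * (a / 2) = a := by ring
      have e2 : √3 * (a / 2) = b := by
        rw [← Real.sqrt_sq hb, ← Real.sqrt_sq (by positivity : 0 ≤ a / 2),
          ← Real.sqrt_mul (by norm_num)]
        congr 1
        linarith
      rw [e1, e2]
      exact hd
  · rintro ⟨τ, c, hd⟩
    rw [← dehn_perm T τ, dis_iff _ (indep_perm T hT τ) _ _ hd, mul_pow, mul_pow,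
      Real.sq_sqrt (by norm_num)]
    ring

end Pool.Agent.L5helper66.TD
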