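import Pool.Agent.L5helper66.TD.Defs
import Pool.Agent.L5helper27.TD.DisGeo
import Pool.Agent.L5helper35.TDIdDis
import Pool.Agent.L5helper37.TDPerm
import Pool.Agent.L5helper41.TD.PyrGeo
import Pool.Agent.L5helper48.TDRest
import Pool.Agent.L5helper50.TDTens
import Pool.Agent.L5helper51.TDPowPyr
import Pool.Agent.L5helper79.TDIdPyr
import Pool.Agent.L5helper79.TDRat
import Pool.Agent.L5helper83.TDSev
import Pool.Agent.L5helper84.TD.PowDis

/-!
# Tetrahedra with a symmetry of order at least 3: the proof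
-/

set_option autoImplicit false

open scoped TensorProduct RealInnerProductSpace

namespace Pool.Agent.L5helper66.TD

open Pool.Agent.L5helper27.TD (dis_geo)
open Pool.Agent.L5helper35.TD (com_dis_id)
open Pool.Agent.L5helper41.TD (pyr_geo)
open Pool.Agent.L5helper48.TD (two_pow_pyr pyr56)
open Pool.Agent.L5helper50.TD (tens tens_zero)
open Pool.Agent.L5helper51.TD (com_pyr_pow)
open Pool.Agent.L5helper79.TD (rat_pyr rat_dis com_pyr_id)
open Pool.Agent.L5helper83.TD (dis32 dis56)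
open Pool.Agent.L5helper84.TD (com_dis_pow)

/-- A positive real number which is not irrational is the quotient of two coprime positive numbers. -/
lemma exists_pq {x : ℝ} (hx : 0 < x) (h : ¬ Irrational x) :
    ∃ p q : ℕ, 0 < p ∧ 0 < q ∧ Nat.Coprime p q ∧ x = p / q := by
  unfold Irrational at h
  rw [not_not] at h
  obtain ⟨r, rfl⟩ := h
  have hr : 0 < r := by exact_mod_cast hx
  refine ⟨r.num.natAbs, r.den, Int.natAbs_pos.2 (Rat.num_pos.2 hr).ne', r.den_pos, r.reduced, ?_⟩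
  have h1 : ((r.num.natAbs : ℤ) : ℝ) = (r.num : ℝ) := by
    rw [Int.natAbs_of_nonneg (Rat.num_pos.2 hr).le]
  have h2 : (r : ℝ) = (r.num : ℝ) / (r.den : ℝ) := by
    exact_mod_cast (Rat.num_div_den r).symm
  rw [h2, ← h1, Int.cast_natCast]

theorem pyr_ne (T : Fin 4 → E3) (hT : AffineIndependent ℝ T) (a b : ℝ) (h : IsPyramid T a b) :
    dehn T ≠ 0 := by
  obtain ⟨ha, hb, hab, α, β, hα, hα', hβ, hβ', hca, hcb, hd⟩ := pyr_geo T hT a b h
  intro h0
  rw [hd] at h0
  obtain ⟨t1, t2⟩ := tens 3 3 (by norm_num) (by norm_num) a b α β ha hb h0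
  have hpos : 0 < 4 * b ^ 2 - a ^ 2 := by nlinarith [pow_pos hb 2]
  by_cases hir : Irrational (b / a)
  · obtain ⟨hra, hrb⟩ := t1 hir
    have hc2 : Real.cos (2 * α) = 2 * (a ^ 2 / (3 * (4 * b ^ 2 - a ^ 2))) - 1 := by
      rw [Real.cos_two_mul, hca, div_pow, Real.sq_sqrt (by positivity)]
    have hrel : 4 * Real.cos β + 3 * Real.cos (2 * α) + 1 = 0 := by
      rw [hc2, hcb]
      field_simp
      ring
    rcases rat_pyr α β hra hrb hrel with h1 | h1
    · rw [hcb, div_eq_iff hpos.ne'] at h1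
      nlinarith [pow_pos ha 2]
    · rw [hcb, div_eq_iff hpos.ne'] at h1
      nlinarith
  · obtain ⟨p, q, hp, hq, hc, hr⟩ := exists_pq (div_pos hb ha) hir
    have hp' : (0 : ℝ) < p := by exact_mod_cast hp
    have hq' : (0 : ℝ) < q := by exact_mod_cast hq
    have hb2 : b = p / q * a := by
      rw [← hr]
      field_simp
    have hpq' : (q : ℝ) ^ 2 < 3 * (p : ℝ) ^ 2 := by
      rw [hb2] at hab
      have e : 3 * ((p : ℝ) / q * a) ^ 2 = 3 * (p : ℝ) ^ 2 / q ^ 2 * a ^ 2 := by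
        field_simp
      rw [e] at hab
      have h3 : 1 < 3 * (p : ℝ) ^ 2 / q ^ 2 := by
        by_contra hcon
        rw [not_lt] at hcon
        nlinarith [pow_pos ha 2]
      rwa [lt_div_iff₀ (by positivity), one_mul] at h3
    have hpq : q ^ 2 < 3 * p ^ 2 := by exact_mod_cast hpq'
    have hpos2 : 0 < 4 * (p : ℝ) ^ 2 - q ^ 2 := by nlinarith [pow_pos hp' 2]
    have hrr : ∃ r : ℚ, q * α + p * β = r * Real.pi := by
      obtain ⟨r, h3⟩ := t2 p q hp hq hr
      refine ⟨r / 3, ?_⟩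
      push_cast at h3 ⊢
      linarith
    have e1 : 4 * b ^ 2 - a ^ 2 = (a / q) ^ 2 * (4 * (p : ℝ) ^ 2 - q ^ 2) := by
      rw [hb2]
      field_simp
    have hca2 : Real.cos α = q / √(3 * (4 * (p : ℝ) ^ 2 - q ^ 2)) := by
      rw [hca, e1]
      have e2 : 3 * ((a / q) ^ 2 * (4 * (p : ℝ) ^ 2 - q ^ 2)) =
          (a / q) ^ 2 * (3 * (4 * (p : ℝ) ^ 2 - q ^ 2)) := by ring
      rw [e2, Real.sqrt_mul (by positivity), Real.sqrt_sq (by positivity)]
      have h4 : 0 < √(3 * (4 * (p : ℝ) ^ 2 - q ^ 2)) := Real.sqrt_pos.2 (by positivity)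
      field_simp
    have hcb2 : Real.cos β = (2 * (p : ℝ) ^ 2 - q ^ 2) / (4 * p ^ 2 - q ^ 2) := by
      rw [hcb, e1]
      have e3 : 2 * b ^ 2 - a ^ 2 = (a / q) ^ 2 * (2 * (p : ℝ) ^ 2 - q ^ 2) := by
        rw [hb2]
        field_simp
      rw [e3, mul_div_mul_left _ _ (by positivity)]
    obtain ⟨M, hM, hid⟩ := com_pyr_id p q hp hq hpq α β hα hα' hβ hβ' hca2 hcb2 hrr
    have key := com_pyr_pow p q hp hq hpq hc M hM hid
    have h3 := (key 3 Nat.prime_three (by norm_num)).2.2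
    rcases two_pow_pyr p q hp hq hpq hc (fun ℓ hl h2 => ⟨(key ℓ hl h2).1, (key ℓ hl h2).2.1⟩) with
      ⟨rfl, rfl⟩ | ⟨rfl, rfl⟩ | ⟨rfl, rfl⟩
    · exact h3 (by norm_num)
    · exact pyr56 M hM hid
    · exact h3 (by norm_num)

theorem dis_iff (T : Fin 4 → E3) (hT : AffineIndependent ℝ T) (a b : ℝ) (h : IsDisphenoid T a b) :
    dehn T = 0 ↔ 3 * a ^ 2 = 4 * b ^ 2 := by
  obtain ⟨ha, hb, hab, α, β, hα, hα', hβ, hβ', hca, hcb, hd⟩ := dis_geo T hT a b h
  have hpos : 0 < 4 * b ^ 2 - a ^ 2 := by nlinarith [pow_pos hb 2]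
  constructor
  · intro h0
    rw [hd] at h0
    obtain ⟨t1, t2⟩ := tens 2 4 (by norm_num) (by norm_num) a b α β ha hb h0
    by_cases hir : Irrational (b / a)
    · obtain ⟨hra, hrb⟩ := t1 hir
      have hrel : Real.cos α + 2 * Real.cos β = 1 := by
        rw [hca, hcb]
        field_simp
        ring
      rcases rat_dis α β hra hrb hrel with h1 | h1 | h1
      · rw [hca, div_eq_iff hpos.ne'] at h1
        linarith
      · rw [hca, div_eq_iff hpos.ne'] at h1
        nlinarith [pow_pos ha 2]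
      · rw [hca, div_eq_iff hpos.ne'] at h1
        nlinarith
    · exfalso
      obtain ⟨p, q, hp, hq, hc, hr⟩ := exists_pq (div_pos hb ha) hir
      have hp' : (0 : ℝ) < p := by exact_mod_cast hp
      have hq' : (0 : ℝ) < q := by exact_mod_cast hq
      have hb2 : b = p / q * a := by
        rw [← hr]
        field_simp
      have hpq' : (q : ℝ) ^ 2 < 2 * (p : ℝ) ^ 2 := by
        rw [hb2] at hab
        have e : 2 * ((p : ℝ) / q * a) ^ 2 = 2 * (p : ℝ) ^ 2 / q ^ 2 * a ^ 2 := by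
          field_simp
        rw [e] at hab
        have h3 : 1 < 2 * (p : ℝ) ^ 2 / q ^ 2 := by
          by_contra hcon
          rw [not_lt] at hcon
          nlinarith [pow_pos ha 2]
        rwa [lt_div_iff₀ (by positivity), one_mul] at h3
      have hpq : q ^ 2 < 2 * p ^ 2 := by exact_mod_cast hpq'
      have hrr : ∃ r : ℚ, q * α + 2 * p * β = r * Real.pi := by
        obtain ⟨r, h3⟩ := t2 p q hp hq hr
        refine ⟨r / 2, ?_⟩
        push_cast at h3 ⊢
        linarith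
      have e1 : 4 * b ^ 2 - a ^ 2 = (a / q) ^ 2 * (4 * (p : ℝ) ^ 2 - q ^ 2) := by
        rw [hb2]
        field_simp
      have hca2 : Real.cos α = (4 * (p : ℝ) ^ 2 - 3 * q ^ 2) / (4 * p ^ 2 - q ^ 2) := by
        rw [hca, e1]
        have e3 : 4 * b ^ 2 - 3 * a ^ 2 = (a / q) ^ 2 * (4 * (p : ℝ) ^ 2 - 3 * q ^ 2) := by
          rw [hb2]
          field_simp
        rw [e3, mul_div_mul_left _ _ (by positivity)]
      have hcb2 : Real.cos β = (q : ℝ) ^ 2 / (4 * p ^ 2 - q ^ 2) := by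
        rw [hcb, e1]
        have e3 : a ^ 2 = (a / q) ^ 2 * (q : ℝ) ^ 2 := by
          field_simp
        conv_lhs => rw [e3]
        rw [mul_div_mul_left _ _ (by positivity)]
      obtain ⟨M, hM, hid⟩ := com_dis_id p q hp hq hpq α β hα hα' hβ hβ' hca2 hcb2 hrr
      have key := com_dis_pow p q hp hq hpq hc M hM hid
      rcases two_pow_pyr p q hp hq (by omega) hc key with ⟨rfl, rfl⟩ | ⟨rfl, rfl⟩ | ⟨rfl, rfl⟩
      · exact dis32 M hM hid
      · exact dis56 M hM hid
      · norm_num at hpq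
  · intro h0
    have h1 : Real.cos α = 0 := by
      rw [hca, ← h0]
      simp
    have h2 : Real.cos β = 1 / 2 := by
      rw [hcb, ← h0, show 3 * a ^ 2 - a ^ 2 = 2 * a ^ 2 by ring]
      field_simp
    have h3 : α = Real.pi / 2 := by
      apply Real.injOn_cos ⟨hα.le, hα'.le⟩ ⟨by positivity, by linarith [Real.pi_pos]⟩
      rw [h1, Real.cos_pi_div_two]
    have h4 : β = Real.pi / 3 := by
      apply Real.injOn_cos ⟨hβ.le, hβ'.le⟩ ⟨by positivity, by linarith [Real.pi_pos]⟩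
      rw [h2, Real.cos_pi_div_three]
    rw [hd, h3, h4]
    exact tens_zero a b

end Pool.Agent.L5helper66.TD
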